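import Pool.Agent.Hhelper71.Stream.Sim

/-!
# Multi-pass streaming lower bound for near-maximum matching

For every constant number `k ≥ 1` of passes, no (randomised) `k`-pass streaming algorithm with
`O(n log^c n)` bits of memory finds, with probability at least `2/3` on every input graph, a
matching with at least `(1 - ε) M(G)` edges, where `ε = 1 / (4 * 5 ^ k)`.
-/

namespace Pool.Agent.Results.MP_3f78b5_lc.MultiPass

open Pool.Agent.Hhelper71.Stream

theorem result : ∀ k : ℕ, 1 ≤ k → ∀ (C : ℝ) (c : ℕ), ∃ n₀ : ℕ, ∀ n ≥ n₀,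
    ∀ s : ℕ, (s : ℝ) ≤ C * n * Real.log n ^ c → ∀ P : PMF (StreamAlg k n s),
      ∃ (G : SimpleGraph (Fin n)) (l : List (Sym2 (Fin n))), IsStreamOf G l ∧
        P.toOuterMeasure {A | Succeeds (1 / (4 * 5 ^ k)) G l A} < 2 / 3 :=
  multiPass

end Pool.Agent.Results.MP_3f78b5_lc.MultiPass
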